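import Pool.Agent.W589.BA.Sec

/-! The final result for `PSL(2,ℝ)` -/

set_option autoImplicit false

open MeasureTheory Set Filter Topology Real
open scoped ENNReal NNReal

namespace Pool.Agent.W589.BA

open Pool.Agent.W314.BA

section parts

variable {X : Type} [MeasurableSpace X] [MulAction G X] {μ : Measure X}

/-- Fubini for almost everywhere statements along orbits -/
theorem ae_orbit [IsProbabilityMeasure μ] (ν : Measure G) [SFinite ν] {P : G → X → Prop}
    (hP : MeasurableSet {p : G × X | P p.1 p.2}) (h : ∀ g, ∀ᵐ x ∂μ, P g x) : ∀ᵐ x ∂μ, ∀ᵐ g ∂ν, P g x :=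
  (Measure.ae_ae_comm (μ := ν) (ν := μ) (p := P) hP).mp (Eventually.of_forall h)

/-- ergodicity from the pointwise theorem -/
theorem ergodic [IsProbabilityMeasure μ] (hm : Measurable (fun p : G × X => p.1 • p.2))
    (hmp : ∀ g : G, MeasurePreserving (fun x : X => g • x) μ μ)
    (hpt : ∀ F : X → ℝ, Integrable F μ → ∀ᵐ p ∂μ,
      Tendsto (fun x => ∫ g, F (g • p) ∂(bm x)) atTop (𝓝 (∫ p, F p ∂μ)))
    (A : Set X) (hA : MeasurableSet A) (hinv : ∀ g : G, (fun x : X => g • x) ⁻¹' A =ᵐ[μ] A) :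
    μ A = 0 ∨ μ A = 1 := by
  set F : X → ℝ := A.indicator (fun _ => 1) with hF
  have hFm : Measurable F := measurable_const.indicator hA
  have hFi : Integrable F μ := (integrable_const (1:ℝ)).indicator hA
  have hint : ∫ p, F p ∂μ = μ.real A := by
    rw [hF, integral_indicator_const _ hA]
    simp
  have h1 : ∀ g : G, ∀ᵐ x ∂μ, F (g • x) = F x := by
    intro g
    filter_upwards [hinv g] with x hx
    have hx2 : (g • x ∈ A) = (x ∈ A) := hx
    rw [hF]
    by_cases hxA : x ∈ A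
    · have hgA : g • x ∈ A := by rw [hx2]; exact hxA
      simp [hxA, hgA]
    · have hgA : g • x ∉ A := by rw [hx2]; exact hxA
      simp [hxA, hgA]
  have hPm : MeasurableSet {p : G × X | F (p.1 • p.2) = F p.2} :=
    measurableSet_eq_fun (hFm.comp hm) (hFm.comp measurable_snd)
  have h2 : ∀ n : ℕ, ∀ᵐ x ∂μ, ∀ᵐ g ∂(bm ((n : ℝ) + 2)), F (g • x) = F x := fun n =>
    ae_orbit (μ := μ) _ (P := fun g x => F (g • x) = F x) hPm h1
  have h3 : ∀ᵐ x ∂μ, F x = μ.real A := by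
    filter_upwards [ae_all_iff.mpr h2, hpt F hFi] with x hx hx2
    have h4 : Tendsto (fun n : ℕ => ∫ g, F (g • x) ∂(bm ((n : ℝ) + 2))) atTop (𝓝 (∫ p, F p ∂μ)) :=
      hx2.comp (tendsto_atTop_add_const_right _ _ tendsto_natCast_atTop_atTop)
    have h5 : (fun n : ℕ => ∫ g, F (g • x) ∂(bm ((n : ℝ) + 2))) = fun _ => F x := by
      funext n
      have := bm_prob (x := (n : ℝ) + 2) (by have : (0:ℝ) ≤ n := Nat.cast_nonneg n; linarith)
      rw [integral_congr_ae (hx n)]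
      simp
    rw [h5, hint] at h4
    exact tendsto_nhds_unique tendsto_const_nhds h4
  obtain ⟨x, hx⟩ := h3.exists
  by_cases hxA : x ∈ A
  · right
    have : F x = 1 := by rw [hF]; simp [hxA]
    rw [this] at hx
    rw [← ENNReal.toReal_eq_one_iff]
    exact hx.symm
  · left
    have : F x = 0 := by rw [hF]; simp [hxA]
    rw [this] at hx
    have h6 : (μ A).toReal = 0 := hx.symm
    exact (ENNReal.toReal_eq_zero_iff _).mp h6 |>.resolve_right (measure_ne_top μ A)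

theorem norm_gap {F D : X → ℝ} (hF : MemLp F 2 μ) (hD : MemLp D 2 μ) {ε : ℝ} (hε : 0 < ε)
    (h : ∫ x, D x ^ 2 ∂μ ≤ ε ^ 2 * ∫ x, F x ^ 2 ∂μ) : eLpNorm D 2 μ ≤ ENNReal.ofReal ε * eLpNorm F 2 μ := by
  rw [hF.eLpNorm_eq_integral_rpow_norm (by norm_num) (by norm_num),
    hD.eLpNorm_eq_integral_rpow_norm (by norm_num) (by norm_num), ← ENNReal.ofReal_mul hε.le]
  apply ENNReal.ofReal_le_ofReal
  have e : ∀ f : X → ℝ, ∫ a, ‖f a‖ ^ (2:ℝ≥0∞).toReal ∂μ = ∫ a, f a ^ 2 ∂μ := by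
    intro f
    apply integral_congr_ae
    refine Eventually.of_forall fun x => ?_
    simp
  rw [e, e]
  have e2 : ((2:ℝ≥0∞).toReal)⁻¹ = (1 / 2 : ℝ) := by norm_num
  rw [e2, ← Real.sqrt_eq_rpow, ← Real.sqrt_eq_rpow]
  calc √(∫ x, D x ^ 2 ∂μ) ≤ √(ε ^ 2 * ∫ x, F x ^ 2 ∂μ) := Real.sqrt_le_sqrt h
    _ = _ := by rw [Real.sqrt_mul (by positivity), Real.sqrt_sq hε.le]

theorem norm_pos {F : X → ℝ} (hF : MemLp F 2 μ) (h : 0 < ∫ x, F x ^ 2 ∂μ) : 0 < eLpNorm F 2 μ := by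
  rw [hF.eLpNorm_eq_integral_rpow_norm (by norm_num) (by norm_num), ENNReal.ofReal_pos]
  have e : ∫ a, ‖F a‖ ^ (2:ℝ≥0∞).toReal ∂μ = ∫ a, F a ^ 2 ∂μ := by
    apply integral_congr_ae
    refine Eventually.of_forall fun x => ?_
    simp
  rw [e]
  exact Real.rpow_pos_of_pos h _

end parts

/-- a compact set of `PSL(2,ℝ)` is covered by a ball -/
theorem compact_bound {Q : Set PSL} (hQ : IsCompact Q) : ∃ R : ℝ, ∀ q ∈ Q, ∃ g ∈ Bx R, mk g = q := by
  have hopen : IsOpenMap (mk : G → PSL) := QuotientGroup.isOpenMap_coe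
  obtain ⟨n, hn⟩ := hQ.elim_directed_cover (fun n : ℕ => mk '' {g : G | hh g < n})
    (fun n => hopen _ (isOpen_lt hh_continuous continuous_const))
    (by
      intro q _
      obtain ⟨g, rfl⟩ := QuotientGroup.mk_surjective q
      obtain ⟨n, hn⟩ := exists_nat_gt (hh g)
      exact mem_iUnion.mpr ⟨n, g, hn, rfl⟩)
    (directed_of_isDirected_le (fun a b hab => image_mono (fun g (hg : hh g < a) =>
      lt_of_lt_of_le hg (by exact_mod_cast hab))))
  refine ⟨n, fun q hq => ?_⟩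
  obtain ⟨g, hg, e⟩ := hn hq
  have hg' : hh g < n := hg
  exact ⟨g, hg'.le, e⟩

theorem cosh_tendsto : Tendsto Real.cosh atTop atTop := by
  apply tendsto_atTop_mono' atTop _ tendsto_id
  filter_upwards [eventually_ge_atTop (0:ℝ)] with x hx
  exact ((Real.self_le_sinh_iff).mpr hx).trans (Real.sinh_lt_cosh x).le

theorem ball_averages {X : Type} [MeasurableSpace X] [MulAction G X] {μ : Measure X} [IsProbabilityMeasure μ]
    (hneg : ∀ x : X, (-1 : G) • x = x) (hm : Measurable (fun p : G × X => p.1 • p.2))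
    (hmp : ∀ g : G, MeasurePreserving (fun x : X => g • x) μ μ)
    (hpt : ∀ F : X → ℝ, Integrable F μ → ∀ᵐ p ∂μ,
      Tendsto (fun x => ∫ g, F (g • p) ∂(bm x)) atTop (𝓝 (∫ p, F p ∂μ)))
    (h2 : HaarTransStmt) (m : Measure PSL) [m.IsHaarMeasure] (p₀ : UpperHalfPlane) (F : X → ℝ)
    (hF : Integrable F μ) :
    letI := actP hneg
    ∀ᵐ x ∂μ, Tendsto (fun r : ℝ => (m.real (ballP p₀ r))⁻¹ * ∫ g in ballP p₀ r, F (g • x) ∂m)
      atTop (𝓝 (∫ x, F x ∂μ)) := by
  letI := actP hneg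
  have hmP : Measurable (fun p : PSL × X => p.1 • p.2) := actP_measurable hneg hm
  obtain ⟨h₀, hh0⟩ := h2 m p₀
  set φ : G → PSL := fun g => (QuotientGroup.mk (h₀ * g * h₀⁻¹) : PSL) with hφ
  have hφm : Measurable φ := by
    have : Continuous (fun g : G => h₀ * g * h₀⁻¹) := by fun_prop
    exact mk_measurable.comp this.measurable
  set F1 : X → ℝ := hF.1.mk F with hF1
  have hF1s : StronglyMeasurable F1 := hF.1.stronglyMeasurable_mk
  have hFF1 : F =ᵐ[μ] F1 := hF.1.ae_eq_mk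
  set N : Set X := toMeasurable μ {x | ¬ F x = F1 x} with hN
  have hNm : MeasurableSet N := measurableSet_toMeasurable _ _
  have hN0 : μ N = 0 := by
    rw [hN, measure_toMeasurable]
    exact hFF1
  have hNF : ∀ x, x ∉ N → F x = F1 x := by
    intro x hx
    by_contra hc
    exact hx (subset_toMeasurable _ _ hc)
  have hsmul : ∀ (g : G) (x : X), φ g • x = h₀ • (g • (h₀⁻¹ • x)) := by
    intro g x
    show (h₀ * g * h₀⁻¹) • x = _
    rw [mul_smul, mul_smul]
  have horb : ∀ n : ℕ, ∀ᵐ x ∂μ, ∀ᵐ g ∂(bm (Real.cosh ((n : ℝ) + 1))), φ g • x ∉ N := by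
    intro n
    apply ae_orbit (μ := μ) _ (P := fun g x => φ g • x ∉ N)
    · exact (hmP.comp ((hφm.comp measurable_fst).prodMk measurable_snd)) hNm.compl
    · intro g
      have h3 : ∀ᵐ x ∂μ, x ∉ N := compl_mem_ae_iff.mpr hN0
      have h4 := (hmp (h₀ * g * h₀⁻¹)).quasiMeasurePreserving.ae h3
      exact h4
  -- the auxiliary function
  set F' : X → ℝ := fun y => F1 (h₀ • y) with hF'
  have hF1i : Integrable F1 μ := hF.congr hFF1
  have hF'i : Integrable F' μ := ((hmp h₀).integrable_comp hF1s.aestronglyMeasurable).mpr hF1i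
  have hF'int : ∫ y, F' y ∂μ = ∫ y, F y ∂μ := by
    have e1 : ∫ y, F1 y ∂(Measure.map (fun x => h₀ • x) μ) = ∫ y, F1 (h₀ • y) ∂μ :=
      integral_map (hmp h₀).measurable.aemeasurable (by rw [(hmp h₀).map_eq]; exact hF1s.aestronglyMeasurable)
    rw [(hmp h₀).map_eq] at e1
    show ∫ y, F1 (h₀ • y) ∂μ = _
    rw [← e1]
    exact integral_congr_ae hFF1.symm
  have hlim := (hmp h₀⁻¹).quasiMeasurePreserving.ae (hpt F' hF'i)
  filter_upwards [ae_all_iff.mpr horb, hlim] with x hx1 hx2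
  have hmx : Measurable (fun q : PSL => q • x) := hmP.comp (measurable_id.prodMk measurable_const)
  have key : ∀ r : ℝ, 0 < r → (m.real (ballP p₀ r))⁻¹ * ∫ g in ballP p₀ r, F (g • x) ∂m =
      ∫ g, F' (g • (h₀⁻¹ • x)) ∂(bm (Real.cosh r)) := by
    intro r hr
    obtain ⟨hb0, hbt, hbe⟩ := hh0 r hr
    -- on the ball the orbit avoids N
    have hav : ∀ᵐ q ∂(m.restrict (ballP p₀ r)), q • x ∉ N := by
      obtain ⟨n, hn⟩ := exists_nat_ge r
      have hn1 : (0:ℝ) < (n : ℝ) + 1 := by positivity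
      obtain ⟨c0, ct, ce⟩ := hh0 ((n : ℝ) + 1) hn1
      have e1 : ∀ᵐ q ∂(Measure.map φ (bm (Real.cosh ((n : ℝ) + 1)))), q • x ∉ N :=
        (ae_map_iff hφm.aemeasurable (hmx hNm.compl)).mpr (hx1 n)
      rw [← ce] at e1
      have e2 : ∀ᵐ q ∂(m.restrict (ballP p₀ ((n : ℝ) + 1))), q • x ∉ N :=
        (Measure.ae_ennreal_smul_measure_iff (ENNReal.inv_ne_zero.mpr ct.ne)).mp e1
      refine ae_mono (Measure.restrict_mono ?_ le_rfl) e2
      rintro q ⟨g, hg, hd⟩
      exact ⟨g, hg, hd.trans (by linarith)⟩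
    have e3 : ∫ g in ballP p₀ r, F (g • x) ∂m = ∫ g in ballP p₀ r, F1 (g • x) ∂m := by
      apply integral_congr_ae
      filter_upwards [hav] with q hq
      exact hNF _ hq
    have e4 : ∫ q, F1 (q • x) ∂((m (ballP p₀ r))⁻¹ • m.restrict (ballP p₀ r)) =
        (m.real (ballP p₀ r))⁻¹ * ∫ g in ballP p₀ r, F1 (g • x) ∂m := by
      rw [integral_smul_measure, ENNReal.toReal_inv, smul_eq_mul]
      rfl
    have e5 : ∫ q, F1 (q • x) ∂(Measure.map φ (bm (Real.cosh r))) = ∫ g, F1 (φ g • x) ∂(bm (Real.cosh r)) :=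
      integral_map (f := fun q : PSL => F1 (q • x)) hφm.aemeasurable
        (hF1s.comp_measurable hmx).aestronglyMeasurable
    rw [e3, ← e4, hbe, e5]
    apply integral_congr_ae
    refine Eventually.of_forall fun g => ?_
    show F1 (φ g • x) = F1 (h₀ • (g • (h₀⁻¹ • x)))
    rw [hsmul]
  have h5 := hx2.comp cosh_tendsto
  rw [hF'int] at h5
  refine h5.congr' ?_
  filter_upwards [eventually_gt_atTop (0:ℝ)] with r hr
  exact (key r hr).symm

theorem main (h1 : SLFinalStmt) (h2 : HaarTransStmt) : FinalStmt := by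
  obtain ⟨X, mX, sb, act, μ, hprob, hm, hmp, hneg, hgap, hpt⟩ := h1
  letI := actP hneg
  have hsec : ∀ (q : PSL) (x : X), q • x = sec q • x := fun q x => actP_sec hneg q x
  have hmpP : ∀ q : PSL, MeasurePreserving (fun x : X => q • x) μ μ := by
    intro q
    have : (fun x : X => q • x) = fun x => sec q • x := funext fun x => hsec q x
    rw [this]
    exact hmp (sec q)
  refine ⟨X, mX, sb, actP hneg, μ, hprob, actP_measurable hneg hm, hmpP, ?_, ?_, ?_⟩
  · intro A hA hinv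
    exact ergodic hm hmp hpt A hA (fun g => hinv (mk g))
  · intro Q hQ ε hε
    obtain ⟨R, hR⟩ := compact_bound hQ
    obtain ⟨F, hF2, hF0, hFp, hFg⟩ := hgap R (ε ^ 2) (by positivity)
    refine ⟨F, hF2, hF0, norm_pos hF2 hFp, ?_⟩
    intro q hq
    obtain ⟨g, hg, rfl⟩ := hR q hq
    have hgi : g⁻¹ ∈ Bx R := inv_mem_Bx.mpr hg
    have hD : MemLp (fun x => F (g⁻¹ • x) - F x) 2 μ := (hF2.comp_measurePreserving (hmp g⁻¹)).sub hF2
    exact norm_gap hF2 hD hε (hFg g⁻¹ hgi)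
  · intro m hHaar p₀ F hF
    exact ball_averages hneg hm hmp hpt h2 m p₀ F hF

end Pool.Agent.W589.BA
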