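import Pool.Agent.W314.BA.Lat

/-! The action of `PSL(2,ℝ)` obtained from an action of `SL(2,ℝ)`; a measurable section. -/

set_option autoImplicit false

open MeasureTheory Set Filter Topology Real
open scoped ENNReal NNReal

namespace Pool.Agent.W589.BA

open Pool.Agent.W314.BA

/-- the quotient map -/
abbrev mk (g : G) : PSL := QuotientGroup.mk g

theorem center_cases (z : G) (hz : z ∈ Subgroup.center G) : z = 1 ∨ z = -1 := by
  obtain ⟨r, hr, h⟩ := Matrix.SpecialLinearGroup.mem_center_iff.mp hz
  rw [Fintype.card_fin] at hr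
  have h2 : r = 1 ∨ r = -1 := by
    have h3 : (r - 1) * (r + 1) = 0 := by linear_combination hr
    rcases mul_eq_zero.mp h3 with h4 | h4
    · left; linarith
    · right; linarith
  rcases h2 with rfl | rfl
  · left
    apply Subtype.ext
    rw [← h]
    simp
  · right
    apply Subtype.ext
    rw [← h]
    ext i j
    fin_cases i <;> fin_cases j <;> simp [Matrix.scalar]

theorem neg_center : (-1 : G) ∈ Subgroup.center G := by
  rw [Subgroup.mem_center_iff]
  intro g
  simp

theorem mk_eq_iff (g h : G) : mk g = mk h ↔ g = h ∨ g = -h := by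
  rw [QuotientGroup.eq]
  constructor
  · intro hz
    rcases center_cases _ hz with h1 | h1
    · left
      exact (inv_mul_eq_one.mp h1)
    · right
      have h2 : h = g * -1 := by rw [← h1, mul_inv_cancel_left]
      rw [h2]
      simp
  · rintro (rfl | rfl)
    · rw [inv_mul_cancel]; exact Subgroup.one_mem _
    · have : (-h)⁻¹ * h = -1 := by simp
      rw [this]
      exact neg_center

theorem mk_neg (g : G) : mk (-g) = mk g := (mk_eq_iff _ _).mpr (Or.inr rfl)

/-- the open part of the section -/
def D1 : Set G := {g | 0 < g.1 0 0}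

/-- the open set containing the rest of the section -/
def D2 : Set G := {g | 0 < g.1 0 1}

/-- the section -/
def DD : Set G := {g | 0 < g.1 0 0 ∨ (g.1 0 0 = 0 ∧ 0 < g.1 0 1)}

theorem cont_entry (i j : Fin 2) : Continuous (fun g : G => g.1 i j) :=
  (continuous_apply_apply i j).comp continuous_subtype_val

theorem D1_open : IsOpen D1 := isOpen_lt continuous_const (cont_entry 0 0)

theorem D2_open : IsOpen D2 := isOpen_lt continuous_const (cont_entry 0 1)

theorem N_open : IsOpen {g : G | g.1 0 0 ≠ 0} := isOpen_ne_fun (cont_entry 0 0) continuous_const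

theorem row_ne (g : G) (h : g.1 0 0 = 0) : g.1 0 1 ≠ 0 := by
  intro h2
  have h3 := g.2
  rw [Matrix.det_fin_two, h, h2] at h3
  norm_num at h3

theorem DD_or (g : G) : g ∈ DD ∨ -g ∈ DD := by
  have hneg : ∀ i j, (-g).1 i j = -(g.1 i j) := fun i j => rfl
  rcases lt_trichotomy (g.1 0 0) 0 with h | h | h
  · right; left
    rw [hneg]; linarith
  · rcases lt_or_gt_of_ne (row_ne g h) with h2 | h2
    · right; right
      rw [hneg, hneg, h]
      constructor
      · simp
      · linarith
    · left; right
      exact ⟨h, h2⟩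
  · left; left; exact h

theorem DD_inj {g h : G} (hg : g ∈ DD) (hh : h ∈ DD) (e : mk g = mk h) : g = h := by
  rcases (mk_eq_iff g h).mp e with h1 | h1
  · exact h1
  · exfalso
    have hneg : ∀ i j, g.1 i j = -(h.1 i j) := fun i j => by rw [h1]; rfl
    rcases hg with a | ⟨a, b⟩ <;> rcases hh with c | ⟨c, d⟩
    · have := hneg 0 0; linarith
    · have := hneg 0 0; linarith
    · have := hneg 0 0; linarith
    · have := hneg 0 1; linarith

open Classical in
/-- the measurable section -/
noncomputable def sec (q : PSL) : G := if q.out ∈ DD then q.out else -q.out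

theorem sec_mem (q : PSL) : sec q ∈ DD := by
  unfold sec
  split_ifs with h
  · exact h
  · exact (DD_or q.out).resolve_left h

theorem mk_sec (q : PSL) : mk (sec q) = q := by
  unfold sec
  split_ifs with h
  · exact QuotientGroup.out_eq' q
  · rw [mk_neg]
    exact QuotientGroup.out_eq' q

theorem sec_eq {g : G} (hg : g ∈ DD) : sec (mk g) = g := DD_inj (sec_mem _) hg (mk_sec _)

theorem sec_measurable : Measurable sec := by
  apply measurable_of_isOpen
  intro U hU
  have hopen : IsOpenMap (mk : G → PSL) := QuotientGroup.isOpenMap_coe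
  have h1 : sec ⁻¹' U = mk '' (U ∩ D1) ∪ (mk '' (U ∩ D2) \ mk '' ((U ∩ D2) ∩ {g : G | g.1 0 0 ≠ 0})) := by
    ext q
    simp only [mem_preimage, mem_union, Set.mem_sdiff]
    constructor
    · intro hq
      rcases sec_mem q with h | ⟨h, h'⟩
      · left
        exact ⟨sec q, ⟨hq, h⟩, mk_sec q⟩
      · right
        refine ⟨⟨sec q, ⟨hq, h'⟩, mk_sec q⟩, ?_⟩
        rintro ⟨g, ⟨⟨hgU, hg2⟩, hg3⟩, hgq⟩
        have e : mk g = mk (sec q) := by rw [hgq, mk_sec]
        rcases (mk_eq_iff g (sec q)).mp e with h1 | h1
        · apply hg3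
          rw [h1]; exact h
        · apply hg3
          rw [h1]
          show -((sec q).1 0 0) = 0
          rw [h, neg_zero]
    · rintro (⟨g, ⟨hgU, hg1⟩, rfl⟩ | ⟨⟨g, ⟨hgU, hg2⟩, rfl⟩, hn⟩)
      · rw [sec_eq (Or.inl hg1)]
        exact hgU
      · have h00 : g.1 0 0 = 0 := by
          by_contra hc
          exact hn ⟨g, ⟨⟨hgU, hg2⟩, hc⟩, rfl⟩
        rw [sec_eq (Or.inr ⟨h00, hg2⟩)]
        exact hgU
  rw [h1]
  apply MeasurableSet.union
  · exact (hopen _ (hU.inter D1_open)).measurableSet
  · apply MeasurableSet.diff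
    · exact (hopen _ (hU.inter D2_open)).measurableSet
    · exact (hopen _ ((hU.inter D2_open).inter N_open)).measurableSet

theorem mk_measurable : Measurable (mk : G → PSL) :=
  (QuotientGroup.continuous_mk (G := G) (N := Subgroup.center G)).measurable

section act

variable {X : Type} [MulAction G X]

/-- the homomorphism of `PSL(2,ℝ)` -/
noncomputable def actHom (hneg : ∀ x : X, (-1 : G) • x = x) : PSL →* Equiv.Perm X :=
  QuotientGroup.lift _ (MulAction.toPermHom G X) (by
    intro z hz
    rw [MonoidHom.mem_ker]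
    rcases center_cases z hz with rfl | rfl
    · exact map_one _
    · ext x
      exact hneg x)

/-- the action of `PSL(2,ℝ)` -/
@[reducible] noncomputable def actP (hneg : ∀ x : X, (-1 : G) • x = x) : MulAction PSL X :=
  MulAction.compHom X (actHom hneg)

theorem actP_mk (hneg : ∀ x : X, (-1 : G) • x = x) (g : G) (x : X) :
    (letI := actP hneg; (mk g • x : X)) = g • x := rfl

theorem actP_sec (hneg : ∀ x : X, (-1 : G) • x = x) (q : PSL) (x : X) :
    (letI := actP hneg; (q • x : X)) = sec q • x := by
  have h := actP_mk hneg (sec q) x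
  rw [mk_sec] at h
  exact h

theorem actP_measurable [MeasurableSpace X] (hneg : ∀ x : X, (-1 : G) • x = x)
    (hm : Measurable (fun p : G × X => p.1 • p.2)) :
    (letI := actP hneg; Measurable (fun p : PSL × X => p.1 • p.2)) := by
  have h : (letI := actP hneg; (fun p : PSL × X => p.1 • p.2)) = fun p : PSL × X => sec p.1 • p.2 := by
    funext p
    exact actP_sec hneg p.1 p.2
  show Measurable (letI := actP hneg; (fun p : PSL × X => p.1 • p.2))
  rw [h]
  exact hm.comp ((sec_measurable.comp measurable_fst).prodMk measurable_snd)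

end act

end Pool.Agent.W589.BA
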